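import Mathlib

/-!
# MP_5675d3, hand-in NoetherianRank: the definitions of the statement
-/

open Set TopologicalSpace Cardinal Ordinal Function

universe u

namespace Pool.H52.MV.NoetherianRank

/-- A family `A` of subsets of `X` is Noetherian if it is nonempty, does not contain the empty
set, and has no infinite strictly increasing chain of members. -/
def IsNoetherianFamily {X : Type u} (A : Set (Set X)) : Prop :=
  A.Nonempty ∧ ∅ ∉ A ∧ ¬ ∃ f : ℕ → Set X, ∀ n, f n ∈ A ∧ f n ⊂ f (n + 1)

/-- The layers of a family `A`, by transfinite recursion: `layer A i` is the set of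
inclusion-maximal elements of what is left of `A` after removing all the layers with
index `< i`. -/
noncomputable def layer {X : Type u} (A : Set (Set X)) (i : Ordinal.{u}) : Set (Set X) :=
  {U | Maximal (fun V => V ∈ A ∧ ∀ j, j < i → V ∉ layer A j) U}
termination_by i
decreasing_by assumption

/-- The rank of `A`: the least ordinal `α` with `A = ⋃ i < α, layer A i`. -/
noncomputable def rank {X : Type u} (A : Set (Set X)) : Ordinal.{u} :=
  sInf {α | A = ⋃ i < α, layer A i}

end Pool.H52.MV.NoetherianRank
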