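import Mathlib
import Pool.Agent.H52.MV.NoetherianRankDefs

/-!
# MP_5675d3, hand-in NoetherianRank: the proof
-/

open Set TopologicalSpace Cardinal Ordinal Function

universe u

namespace Pool.H52.MV.NoetherianRank

section General

variable {X : Type u} {A : Set (Set X)}

theorem wf_of_noeth (h : IsNoetherianFamily A) :
    IsWellFounded A (fun a b : A => (b : Set X) ⊂ a) := by
  refine ⟨?_⟩
  rw [wellFounded_iff_isEmpty_descending_chain]
  refine ⟨fun f => h.2.2 ⟨fun n => (f.1 n : Set X), fun n => ⟨(f.1 n).2, f.2 n⟩⟩⟩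

/-- abstract description of the rank function -/
def IsRk (A : Set (Set X)) (r : Set X → Ordinal.{u}) : Prop :=
  ∀ U ∈ A, ∀ i, r U ≤ i ↔ ∀ V ∈ A, U ⊂ V → r V < i

theorem exists_isRk (h : IsNoetherianFamily A) : ∃ r, IsRk A r := by
  classical
  have := wf_of_noeth h
  refine ⟨fun U => if hU : U ∈ A then
    IsWellFounded.rank (fun a b : A => (b : Set X) ⊂ a) ⟨U, hU⟩ else 0, ?_⟩
  intro U hU i
  simp only [hU, dite_true]
  rw [IsWellFounded.rank_eq, Ordinal.iSup_le_iff]
  constructor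
  · intro H V hV hUV
    have := H ⟨⟨V, hV⟩, hUV⟩
    simp only [hV, dite_true]
    exact Order.succ_le_iff.1 this
  · rintro H ⟨⟨V, hV⟩, hUV⟩
    have := H V hV hUV
    simp only [hV, dite_true] at this
    exact Order.succ_le_iff.2 this

theorem IsRk.lt {r : Set X → Ordinal.{u}} (hr : IsRk A r) {U V : Set X} (hU : U ∈ A) (hV : V ∈ A)
    (h : U ⊂ V) : r V < r U := (hr U hU (r U)).1 le_rfl V hV h

theorem IsRk.layer_eq {r : Set X → Ordinal.{u}} (hr : IsRk A r) (i : Ordinal.{u}) :
    layer A i = {U | U ∈ A ∧ r U = i} := by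
  induction i using WellFoundedLT.induction with
  | ind i ih =>
    rw [layer]
    ext U
    have key : ∀ V, (V ∈ A ∧ ∀ j, j < i → V ∉ layer A j) ↔ (V ∈ A ∧ i ≤ r V) := by
      intro V
      constructor
      · rintro ⟨hV, h⟩
        refine ⟨hV, ?_⟩
        by_contra hlt
        have hlt : r V < i := not_le.1 hlt
        have := h _ hlt
        rw [ih _ hlt] at this
        exact this ⟨hV, rfl⟩
      · rintro ⟨hV, h⟩
        refine ⟨hV, fun j hj hVj => ?_⟩
        rw [ih _ hj] at hVj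
        rw [hVj.2] at h
        exact absurd hj (not_lt.2 h)
    simp only [mem_ofPred_eq]
    simp only [Maximal, key]
    constructor
    · rintro ⟨⟨hU, h1⟩, h2⟩
      refine ⟨hU, le_antisymm ?_ h1⟩
      rw [hr U hU]
      intro V hV hUV
      by_contra hlt
      have := h2 ⟨hV, not_lt.1 hlt⟩ hUV.subset
      exact hUV.not_subset this
    · rintro ⟨hU, rfl⟩
      refine ⟨⟨hU, le_rfl⟩, fun V hV hUV => ?_⟩
      by_contra hne
      exact absurd (hr.lt hU hV.1 ⟨hUV, hne⟩) (not_lt.2 hV.2)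

theorem IsRk.eq_iUnion_iff {r : Set X → Ordinal.{u}} (hr : IsRk A r) (α : Ordinal.{u}) :
    A = ⋃ i < α, layer A i ↔ ∀ U ∈ A, r U < α := by
  constructor
  · intro h U hU
    rw [h] at hU
    simp only [mem_iUnion, hr.layer_eq, mem_ofPred_eq, exists_prop] at hU
    obtain ⟨i, hi, -, rfl⟩ := hU
    exact hi
  · intro h
    ext U
    simp only [mem_iUnion, hr.layer_eq, mem_ofPred_eq, exists_prop]
    constructor
    · intro hU
      exact ⟨r U, h U hU, hU, rfl⟩
    · rintro ⟨i, _, hU, _⟩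
      exact hU

theorem IsRk.nonempty {r : Set X → Ordinal.{u}} (hr : IsRk A r) :
    {α | A = ⋃ i < α, layer A i}.Nonempty := by
  refine ⟨⨆ U : A, Order.succ (r U), ?_⟩
  rw [mem_ofPred_eq, hr.eq_iUnion_iff]
  intro U hU
  exact lt_of_lt_of_le (Order.lt_succ _) (Ordinal.le_iSup (fun U : A => Order.succ (r U)) ⟨U, hU⟩)

theorem IsRk.rank_le_iff {r : Set X → Ordinal.{u}} (hr : IsRk A r) (α : Ordinal.{u}) :
    rank A ≤ α ↔ ∀ U ∈ A, r U < α := by
  constructor
  · intro h U hU
    have := csInf_mem hr.nonempty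
    rw [mem_ofPred_eq, hr.eq_iUnion_iff] at this
    exact lt_of_lt_of_le (this U hU) h
  · intro h
    exact csInf_le' ((hr.eq_iUnion_iff α).2 h)

theorem IsRk.lt_rank {r : Set X → Ordinal.{u}} (hr : IsRk A r) {U : Set X} (hU : U ∈ A) :
    r U < rank A := (hr.rank_le_iff _).1 le_rfl U hU

/-- the rank function takes all the smaller values on the strict supersets -/
theorem IsRk.exists_eq {r : Set X → Ordinal.{u}} (hr : IsRk A r) (β : Ordinal.{u}) :
    ∀ γ, ∀ U ∈ A, r U = γ → β < γ → ∃ V ∈ A, U ⊂ V ∧ r V = β := by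
  intro γ
  induction γ using WellFoundedLT.induction with
  | ind γ ih =>
    intro U hU hUγ hβ
    have h1 : ¬ (r U ≤ β) := by rw [hUγ]; exact not_le.2 hβ
    rw [hr U hU] at h1
    push Not at h1
    obtain ⟨V, hV, hUV, hle⟩ := h1
    rcases hle.eq_or_lt with h | h
    · exact ⟨V, hV, hUV, h.symm⟩
    · have h2 : r V < γ := hUγ ▸ hr.lt hU hV hUV
      obtain ⟨W, hW, hVW, hr⟩ := ih _ h2 V hV rfl h
      exact ⟨W, hW, hUV.trans hVW, hr⟩

theorem IsRk.card_le {r : Set X → Ordinal.{u}} (hr : IsRk A r) {U : Set X} (hU : U ∈ A) :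
    (r U).card ≤ #{V // V ∈ A ∧ U ⊂ V} := by
  have h : ∀ β : Iio (r U), ∃ V : {V // V ∈ A ∧ U ⊂ V}, r V.1 = β := by
    intro β
    obtain ⟨V, hV, hUV, h⟩ := hr.exists_eq β _ U hU rfl β.2
    exact ⟨⟨V, hV, hUV⟩, h⟩
  choose g hg using h
  have hinj : Injective g := by
    intro a b hab
    apply Subtype.ext
    rw [← hg a, ← hg b, hab]
  have := Cardinal.mk_le_of_injective (f := fun a : Iio (r U) => ULift.up.{u+1} (g a))
    (fun a b hab => hinj (ULift.up_injective hab))
  rw [Cardinal.mk_uLift, Cardinal.mk_Iio_ordinal, Cardinal.lift_le] at this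
  exact this

end General

section Space

/-- The tree: functions `s : I → ℕ ∪ {∞}` such that once `∞` is taken, it is taken forever. They
code the functions from initial segments of `I` to `ℕ`. -/
def T (I : Type u) [LinearOrder I] : Type u :=
  {s : I → ℕ∞ // ∀ i j, i ≤ j → s i = ⊤ → s j = ⊤}

variable {I : Type u} [LinearOrder I] {J : Type u} [LinearOrder J]

theorem T_ext {s t : T I} (h : ∀ j, s.1 j = t.1 j) : s = t := Subtype.ext (funext h)

/-- the node with domain `{j | j < k}` and values `p j` there -/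
def node (k : I) (p : I → ℕ) : T I :=
  ⟨fun j => if j < k then (p j : ℕ∞) else ⊤, by
    intro i j hij hi
    by_cases h : i < k
    · simp [h] at hi
    · have : ¬ j < k := fun h' => h (lt_of_le_of_lt hij h')
      simp [this]⟩

/-- the full branch `p` -/
def full (p : I → ℕ) : T I :=
  ⟨fun j => (p j : ℕ∞), by
    intro i j hij hi
    simp at hi⟩

theorem T_cases [WellFoundedLT I] (t : T I) : (∃ p, t = full p) ∨ ∃ k p, t = node k p := by
  by_cases h : ∃ j, t.1 j = ⊤
  · right
    let k := WellFounded.min (wellFounded_lt (α := I)) {j | t.1 j = ⊤} h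
    have hk : t.1 k = ⊤ := WellFounded.min_mem (wellFounded_lt (α := I)) {j | t.1 j = ⊤} h
    refine ⟨k, fun j => (t.1 j).toNat, T_ext fun j => ?_⟩
    by_cases hj : j < k
    · have : t.1 j ≠ ⊤ := fun h' =>
        WellFounded.not_lt_min (wellFounded_lt (α := I)) {j | t.1 j = ⊤} h' hj
      simp only [node, hj, if_true]
      exact (ENat.natCast_toNat this).symm
    · simp only [node, hj, if_false]
      exact t.2 k j (not_lt.1 hj) hk
  · left
    push Not at h
    refine ⟨fun j => (t.1 j).toNat, T_ext fun j => ?_⟩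
    exact (ENat.natCast_toNat (h j)).symm

/-- basic neighbourhoods of nodes -/
def W (i : I) (p : I → ℕ) (n : ℕ) : Set (T I ⊕ J) :=
  Sum.inl '' {t : T I | (∀ j, j < i → t.1 j = p j) ∧ (n : ℕ∞) ≤ t.1 i}

/-- isolated points of the tree -/
def P (p : I → ℕ) : Set (T I ⊕ J) := {Sum.inl (full p)}

/-- final segments of `J` -/
def R (a : J) : Set (T I ⊕ J) := Sum.inr '' Ici a

/-- points of `J` -/
def S (a : J) : Set (T I ⊕ J) := {Sum.inr a}

theorem inl_mem_W {t : T I} {i : I} {p : I → ℕ} {n : ℕ} :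
    (Sum.inl t : T I ⊕ J) ∈ W i p n ↔ (∀ j, j < i → t.1 j = p j) ∧ (n : ℕ∞) ≤ t.1 i := by
  simp [W]

theorem inr_mem_W {a : J} {i : I} {p : I → ℕ} {n : ℕ} :
    (Sum.inr a : T I ⊕ J) ∉ W i p n := by
  simp [W]

theorem node_mem_W {k : I} {q : I → ℕ} {i : I} {p : I → ℕ} {n : ℕ} :
    (Sum.inl (node k q) : T I ⊕ J) ∈ W i p n ↔
      i ≤ k ∧ (∀ j, j < i → q j = p j) ∧ (i < k → n ≤ q i) := by
  rw [inl_mem_W]
  constructor
  · rintro ⟨h1, h2⟩
    have hik : i ≤ k := by
      by_contra hlt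
      have := h1 k (not_le.1 hlt)
      simp [node] at this
    refine ⟨hik, fun j hj => ?_, fun hi => ?_⟩
    · have := h1 j hj
      simp only [node, lt_of_lt_of_le hj hik, if_true] at this
      exact_mod_cast this
    · simp only [node, hi, if_true] at h2
      exact_mod_cast h2
  · rintro ⟨hik, h1, h2⟩
    refine ⟨fun j hj => ?_, ?_⟩
    · simp only [node, lt_of_lt_of_le hj hik, if_true]
      rw [h1 j hj]
    · by_cases hi : i < k
      · simp only [node, hi, if_true]
        exact_mod_cast h2 hi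
      · simp [node, hi]

theorem full_mem_W {q : I → ℕ} {i : I} {p : I → ℕ} {n : ℕ} :
    (Sum.inl (full q) : T I ⊕ J) ∈ W i p n ↔ (∀ j, j < i → q j = p j) ∧ n ≤ q i := by
  rw [inl_mem_W]
  simp only [full]
  constructor
  · rintro ⟨h1, h2⟩
    exact ⟨fun j hj => by exact_mod_cast h1 j hj, by exact_mod_cast h2⟩
  · rintro ⟨h1, h2⟩
    exact ⟨fun j hj => by exact_mod_cast h1 j hj, by exact_mod_cast h2⟩

theorem node_ne_full {k : I} {q p : I → ℕ} : node k q ≠ full p := by
  intro h
  have := congrArg (fun t : T I => t.1 k) h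
  simp [node, full] at this

theorem full_inj {q p : I → ℕ} (h : full q = full p) : q = p := by
  funext j
  have := congrArg (fun t : T I => t.1 j) h
  simp only [full] at this
  exact_mod_cast this

theorem W_subset_iff {i : I} {p : I → ℕ} {n : ℕ} {j : I} {q : I → ℕ} {m : ℕ} :
    (W i p n : Set (T I ⊕ J)) ⊆ W j q m ↔
      j ≤ i ∧ (∀ l, l < j → p l = q l) ∧ (j < i → m ≤ p j) ∧ (j = i → m ≤ n) := by
  constructor
  · intro h
    have h1 : (Sum.inl (node i p) : T I ⊕ J) ∈ W j q m := by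
      apply h
      rw [node_mem_W]
      exact ⟨le_rfl, fun _ _ => rfl, fun h => absurd h (lt_irrefl _)⟩
    rw [node_mem_W] at h1
    refine ⟨h1.1, h1.2.1, h1.2.2, ?_⟩
    rintro rfl
    have h2 : (Sum.inl (full (Function.update p j n)) : T I ⊕ J) ∈ W j q m := by
      apply h
      rw [full_mem_W]
      refine ⟨fun l hl => ?_, ?_⟩
      · rw [Function.update_of_ne hl.ne]
      · rw [Function.update_self]
    rw [full_mem_W, Function.update_self] at h2
    exact h2.2
  · rintro ⟨h1, h2, h3, h4⟩ x hx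
    rcases x with t | a
    · rw [inl_mem_W] at hx ⊢
      refine ⟨fun l hl => ?_, ?_⟩
      · rw [hx.1 l (lt_of_lt_of_le hl h1), h2 l hl]
      · rcases h1.eq_or_lt with h | h
        · subst h
          exact le_trans (by exact_mod_cast h4 rfl) hx.2
        · rw [hx.1 j h]
          exact_mod_cast h3 h
    · exact absurd hx inr_mem_W

theorem W_congr {i : I} {p q : I → ℕ} {n : ℕ} (h : ∀ l, l < i → p l = q l) :
    (W i p n : Set (T I ⊕ J)) = W i q n := by
  apply Subset.antisymm
  · rw [W_subset_iff]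
    exact ⟨le_rfl, h, fun h => absurd h (lt_irrefl _), fun _ => le_rfl⟩
  · rw [W_subset_iff]
    exact ⟨le_rfl, fun l hl => (h l hl).symm, fun h => absurd h (lt_irrefl _), fun _ => le_rfl⟩

theorem node_mem_self {i : I} {p : I → ℕ} {n : ℕ} :
    (Sum.inl (node i p) : T I ⊕ J) ∈ W i p n := by
  rw [node_mem_W]
  exact ⟨le_rfl, fun _ _ => rfl, fun h => absurd h (lt_irrefl _)⟩

/-- the base -/
def baseFam (I J : Type u) [LinearOrder I] [LinearOrder J] : Set (Set (T I ⊕ J)) :=
  {U | (∃ i p n, U = W i p n) ∨ (∃ p, U = P p) ∨ (∃ a, U = R a) ∨ ∃ a, U = S a}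

theorem W_mem (i : I) (p : I → ℕ) (n : ℕ) : W i p n ∈ baseFam I J := Or.inl ⟨i, p, n, rfl⟩

theorem P_mem (p : I → ℕ) : P p ∈ baseFam I J := Or.inr (Or.inl ⟨p, rfl⟩)

theorem R_mem (a : J) : R a ∈ baseFam I J := Or.inr (Or.inr (Or.inl ⟨a, rfl⟩))

theorem S_mem (a : J) : S a ∈ baseFam I J := Or.inr (Or.inr (Or.inr ⟨a, rfl⟩))

theorem baseFam_nonempty {U : Set (T I ⊕ J)} (hU : U ∈ baseFam I J) : U.Nonempty := by
  rcases hU with ⟨i, p, n, rfl⟩ | ⟨p, rfl⟩ | ⟨a, rfl⟩ | ⟨a, rfl⟩
  · exact ⟨_, node_mem_self⟩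
  · exact ⟨_, rfl⟩
  · exact ⟨_, ⟨a, le_rfl, rfl⟩⟩
  · exact ⟨_, rfl⟩

/-- a node in a basic set has small neighbourhoods inside -/
theorem node_nbhd {k : I} {q : I → ℕ} {U : Set (T I ⊕ J)} (hU : U ∈ baseFam I J)
    (h : (Sum.inl (node k q) : T I ⊕ J) ∈ U) : ∃ n, ∀ m, n ≤ m → W k q m ⊆ U := by
  rcases hU with ⟨i, p, n, rfl⟩ | ⟨p, rfl⟩ | ⟨a, rfl⟩ | ⟨a, rfl⟩
  · rw [node_mem_W] at h
    refine ⟨n, fun m hm => ?_⟩
    rw [W_subset_iff]
    exact ⟨h.1, h.2.1, h.2.2, fun _ => hm⟩
  · exact absurd (Sum.inl_injective (mem_singleton_iff.1 h)) node_ne_full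
  · obtain ⟨b, _, hb⟩ := h
    exact absurd hb (by simp)
  · exact absurd (mem_singleton_iff.1 h) (by simp)

/-- every point is isolated (its singleton is in the base) or a node -/
theorem pt_cases [WellFoundedLT I] (x : T I ⊕ J) :
    {x} ∈ baseFam I J ∨ ∃ k q, x = Sum.inl (node k q) := by
  rcases x with t | a
  · rcases T_cases t with ⟨p, rfl⟩ | ⟨k, p, rfl⟩
    · exact Or.inl (P_mem p)
    · exact Or.inr ⟨k, p, rfl⟩
  · exact Or.inl (S_mem a)

theorem node_compl {k : I} {q : I → ℕ} {U : Set (T I ⊕ J)} (hU : U ∈ baseFam I J)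
    (h : (Sum.inl (node k q) : T I ⊕ J) ∉ U) : ∃ n, Disjoint (W k q n) U := by
  rcases hU with ⟨i, p, n, rfl⟩ | ⟨p, rfl⟩ | ⟨a, rfl⟩ | ⟨a, rfl⟩
  · refine ⟨p k + 1, Set.disjoint_left.2 ?_⟩
    rintro (t | a) h1 h2
    · rw [inl_mem_W] at h1 h2
      have hik : i ≤ k := by
        by_contra hlt
        have h3 := h2.1 k (not_le.1 hlt)
        have h4 := h1.2
        rw [h3] at h4
        have : p k + 1 ≤ p k := by exact_mod_cast h4
        omega
      apply h
      rw [node_mem_W]
      refine ⟨hik, fun j hj => ?_, fun hi => ?_⟩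
      · have h3 := h2.1 j hj
        have h4 := h1.1 j (lt_of_lt_of_le hj hik)
        rw [h4] at h3
        exact_mod_cast h3
      · have h3 := h2.2
        rw [h1.1 i hi] at h3
        exact_mod_cast h3
    · exact inr_mem_W h1
  · refine ⟨p k + 1, Set.disjoint_left.2 ?_⟩
    intro x h1 h2
    rw [P, mem_singleton_iff] at h2
    subst h2
    rw [full_mem_W] at h1
    have := h1.2
    omega
  · refine ⟨0, Set.disjoint_left.2 ?_⟩
    rintro x h1 ⟨b, _, rfl⟩
    exact inr_mem_W h1
  · refine ⟨0, Set.disjoint_left.2 ?_⟩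
    intro x h1 h2
    rw [S, mem_singleton_iff] at h2
    subst h2
    exact inr_mem_W h1

theorem exists_sep [WellFoundedLT I] {x y : T I ⊕ J} (h : x ≠ y) :
    ∃ U ∈ baseFam I J, x ∈ U ∧ y ∉ U := by
  rcases pt_cases x with hx | ⟨k, q, rfl⟩
  · exact ⟨_, hx, rfl, fun h' => h (mem_singleton_iff.1 h').symm⟩
  · by_contra hcon
    push Not at hcon
    have h1 : ∀ n, y ∈ W k q n := fun n => hcon _ (W_mem k q n) node_mem_self
    apply h
    rcases y with t | a
    · congr 1
      apply T_ext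
      intro j
      have h2 : t.1 k = ⊤ := by
        rw [ENat.eq_top_iff_forall_ge]
        intro n
        exact (inl_mem_W.1 (h1 n)).2
      by_cases hj : j < k
      · simp only [node, hj, if_true]
        exact ((inl_mem_W.1 (h1 0)).1 j hj).symm
      · simp only [node, hj, if_false]
        exact (t.2 k j (not_lt.1 hj) h2).symm
    · exact absurd (h1 0) inr_mem_W

theorem isBasis [WellFoundedLT I] :
    @IsTopologicalBasis (T I ⊕ J) (generateFrom (baseFam I J)) (baseFam I J) := by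
  let _ : TopologicalSpace (T I ⊕ J) := generateFrom (baseFam I J)
  refine ⟨?_, ?_, rfl⟩
  · rintro U hU V hV x ⟨hxU, hxV⟩
    rcases pt_cases x with hx | ⟨k, q, rfl⟩
    · exact ⟨_, hx, rfl, fun y hy => by rw [mem_singleton_iff.1 hy]; exact ⟨hxU, hxV⟩⟩
    · obtain ⟨n, hn⟩ := node_nbhd hU hxU
      obtain ⟨m, hm⟩ := node_nbhd hV hxV
      exact ⟨W k q (max n m), W_mem _ _ _, node_mem_self,
        subset_inter (hn _ (le_max_left _ _)) (hm _ (le_max_right _ _))⟩
  · apply eq_univ_of_forall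
    intro x
    rcases pt_cases x with hx | ⟨k, q, rfl⟩
    · exact ⟨_, hx, rfl⟩
    · exact ⟨W k q 0, W_mem _ _ _, node_mem_self⟩

theorem isClopen_baseFam [WellFoundedLT I] {U : Set (T I ⊕ J)} (hU : U ∈ baseFam I J) :
    @IsClopen _ (generateFrom (baseFam I J)) U := by
  let _ : TopologicalSpace (T I ⊕ J) := generateFrom (baseFam I J)
  have hB : IsTopologicalBasis (baseFam I J) := isBasis
  refine ⟨⟨?_⟩, hB.isOpen hU⟩
  rw [hB.isOpen_iff]
  intro x hx
  rcases pt_cases x with hx' | ⟨k, q, rfl⟩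
  · exact ⟨_, hx', rfl, fun y hy => by rw [mem_singleton_iff.1 hy]; exact hx⟩
  · obtain ⟨n, hn⟩ := node_compl hU hx
    exact ⟨_, W_mem k q n, node_mem_self, disjoint_left.1 hn⟩

theorem t2 [WellFoundedLT I] : @T2Space (T I ⊕ J) (generateFrom (baseFam I J)) := by
  let _ : TopologicalSpace (T I ⊕ J) := generateFrom (baseFam I J)
  refine ⟨fun x y hxy => ?_⟩
  obtain ⟨U, hU, hx, hy⟩ := exists_sep hxy
  have hc : IsClopen U := isClopen_baseFam hU
  exact ⟨U, Uᶜ, hc.2, hc.1.isOpen_compl, hx, hy, disjoint_compl_right⟩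

theorem firstCountable [WellFoundedLT I] :
    @FirstCountableTopology (T I ⊕ J) (generateFrom (baseFam I J)) := by
  let _ : TopologicalSpace (T I ⊕ J) := generateFrom (baseFam I J)
  have hB : IsTopologicalBasis (baseFam I J) := isBasis
  refine ⟨fun x => ?_⟩
  rcases pt_cases x with hx | ⟨k, q, rfl⟩
  · have h : IsOpen ({x} : Set (T I ⊕ J)) := hB.isOpen hx
    rw [(isOpen_singleton_iff_nhds_eq_pure x).1 h]
    infer_instance
  · have h : (nhds (Sum.inl (node k q) : T I ⊕ J)).HasBasis (fun _ : ℕ => True) (W k q) := by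
      refine ⟨fun s => ?_⟩
      rw [hB.mem_nhds_iff]
      constructor
      · rintro ⟨U, hU, hx, hUs⟩
        obtain ⟨n, hn⟩ := node_nbhd hU hx
        exact ⟨n, trivial, (hn n le_rfl).trans hUs⟩
      · rintro ⟨n, _, hn⟩
        exact ⟨_, W_mem k q n, node_mem_self, hn⟩
    exact h.isCountablyGenerated

theorem ssup_W {i : I} {p : I → ℕ} {n : ℕ} {V : Set (T I ⊕ J)} (hV : V ∈ baseFam I J)
    (h : W i p n ⊂ V) : ∃ j m, V = W j p m ∧ j ≤ i ∧ (j < i → m ≤ p j) ∧ (j = i → m < n) := by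
  rcases hV with ⟨j, q, m, rfl⟩ | ⟨q, rfl⟩ | ⟨a, rfl⟩ | ⟨a, rfl⟩
  · have h1 := W_subset_iff.1 h.subset
    have h2 : (W j q m : Set (T I ⊕ J)) = W j p m := W_congr fun l hl => (h1.2.1 l hl).symm
    refine ⟨j, m, h2, h1.1, h1.2.2.1, fun hji => ?_⟩
    subst hji
    refine lt_of_le_of_ne (h1.2.2.2 rfl) ?_
    rintro rfl
    rw [h2] at h
    exact (ssubset_irrefl _) h
  · have h1 : (Sum.inl (node i p) : T I ⊕ J) ∈ P q := h.subset node_mem_self
    exact absurd (Sum.inl_injective (mem_singleton_iff.1 h1)) node_ne_full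
  · have h1 : (Sum.inl (node i p) : T I ⊕ J) ∈ R a := h.subset node_mem_self
    obtain ⟨b, _, hb⟩ := h1
    exact absurd hb (by simp)
  · have h1 : (Sum.inl (node i p) : T I ⊕ J) ∈ S a := h.subset node_mem_self
    exact absurd (mem_singleton_iff.1 h1) (by simp)

theorem not_ssup_singleton {x : T I ⊕ J} {U : Set (T I ⊕ J)} (hU : U ∈ baseFam I J) :
    ¬ U ⊂ {x} := by
  intro h
  obtain ⟨y, hy⟩ := baseFam_nonempty hU
  apply h.not_subset
  intro z hz
  rw [mem_singleton_iff.1 hz, ← mem_singleton_iff.1 (h.subset hy)]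
  exact hy

theorem ssup_P {p : I → ℕ} {V : Set (T I ⊕ J)} (hV : V ∈ baseFam I J)
    (h : P p ⊂ V) : ∃ j q m, V = W j q m := by
  rcases hV with ⟨j, q, m, rfl⟩ | ⟨q, rfl⟩ | ⟨a, rfl⟩ | ⟨a, rfl⟩
  · exact ⟨j, q, m, rfl⟩
  · exact absurd h (not_ssup_singleton (P_mem p))
  · obtain ⟨b, _, hb⟩ : (Sum.inl (full p) : T I ⊕ J) ∈ R a := h.subset rfl
    exact absurd hb (by simp)
  · exact absurd h (not_ssup_singleton (P_mem p))

theorem ssup_R {a : J} {V : Set (T I ⊕ J)} (hV : V ∈ baseFam I J)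
    (h : R a ⊂ V) : ∃ b, V = R b ∧ b < a := by
  have h0 : (Sum.inr a : T I ⊕ J) ∈ V := h.subset ⟨a, le_rfl, rfl⟩
  rcases hV with ⟨j, q, m, rfl⟩ | ⟨q, rfl⟩ | ⟨b, rfl⟩ | ⟨b, rfl⟩
  · exact absurd h0 inr_mem_W
  · exact absurd h (not_ssup_singleton (R_mem a))
  · refine ⟨b, rfl, ?_⟩
    obtain ⟨c, hc, hca⟩ := h0
    have hca : c = a := Sum.inr_injective hca
    subst hca
    refine lt_of_le_of_ne hc ?_
    rintro rfl
    exact (ssubset_irrefl _) h
  · exact absurd h (not_ssup_singleton (R_mem a))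

theorem ssup_S {a : J} {V : Set (T I ⊕ J)} (hV : V ∈ baseFam I J)
    (h : S a ⊂ V) : ∃ b, V = R b ∧ b ≤ a := by
  have h0 : (Sum.inr a : T I ⊕ J) ∈ V := h.subset rfl
  rcases hV with ⟨j, q, m, rfl⟩ | ⟨q, rfl⟩ | ⟨b, rfl⟩ | ⟨b, rfl⟩
  · exact absurd h0 inr_mem_W
  · exact absurd h (not_ssup_singleton (S_mem a))
  · refine ⟨b, rfl, ?_⟩
    obtain ⟨c, hc, hca⟩ := h0
    have hca : c = a := Sum.inr_injective hca
    subst hca
    exact hc
  · exact absurd h (not_ssup_singleton (S_mem a))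

theorem isNoetherianFamily_of_subset [WellFoundedLT I] [WellFoundedLT J]
    {B : Set (Set (T I ⊕ J))} (hB : B ⊆ baseFam I J) (hne : B.Nonempty) :
    IsNoetherianFamily B := by
  refine ⟨hne, fun h => (baseFam_nonempty (hB h)).ne_empty rfl, ?_⟩
  rintro ⟨f, hf⟩
  have hfB : ∀ n, f n ∈ baseFam I J := fun n => hB (hf n).1
  rcases hfB 1 with ⟨i, p, n, h1⟩ | ⟨p, h1⟩ | ⟨a, h1⟩ | ⟨a, h1⟩
  · have h2 : ∀ k, ∃ i n, f (k + 1) = W i p n := by
      intro k
      induction k with
      | zero => exact ⟨i, n, h1⟩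
      | succ k ih =>
        obtain ⟨j, m, h⟩ := ih
        obtain ⟨j', m', h', -⟩ := ssup_W (hfB (k + 2)) (h ▸ (hf (k + 1)).2)
        exact ⟨j', m', h'⟩
    choose i' n' h3 using h2
    have h4 : ∀ k, toLex (i' (k + 1), n' (k + 1)) < toLex (i' k, n' k) := by
      intro k
      have h5 := (hf (k + 1)).2
      rw [h3 k, h3 (k + 1)] at h5
      have h6 := W_subset_iff.1 h5.subset
      rw [Prod.Lex.toLex_lt_toLex]
      rcases h6.1.eq_or_lt with h7 | h7
      · right
        refine ⟨h7, lt_of_le_of_ne (h6.2.2.2 h7) ?_⟩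
        intro h8
        simp only at h8
        rw [h7, h8] at h5
        exact (ssubset_irrefl _) h5
      · left
        exact h7
    exact (not_strictAnti_of_wellFoundedLT (fun k => toLex (i' k, n' k))
      (strictAnti_nat_of_succ_lt h4)).elim
  · exact not_ssup_singleton (hfB 0) (by have := (hf 0).2; rwa [h1] at this)
  · have h2 : ∀ k, ∃ a, f (k + 1) = R a := by
      intro k
      induction k with
      | zero => exact ⟨a, h1⟩
      | succ k ih =>
        obtain ⟨b, h⟩ := ih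
        obtain ⟨c, h', -⟩ := ssup_R (hfB (k + 2)) (h ▸ (hf (k + 1)).2)
        exact ⟨c, h'⟩
    choose a' h3 using h2
    have h4 : ∀ k, a' (k + 1) < a' k := by
      intro k
      have h5 := (hf (k + 1)).2
      rw [h3 k] at h5
      obtain ⟨c, h', hc⟩ := ssup_R (hfB (k + 2)) h5
      rw [h3 (k + 1)] at h'
      have h6 : (Sum.inr c : T I ⊕ J) ∈ R (a' (k + 1)) := by rw [h']; exact ⟨c, le_rfl, rfl⟩
      obtain ⟨d, hd, hdc⟩ := h6
      have hdc : d = c := Sum.inr_injective hdc
      subst hdc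
      exact lt_of_le_of_lt hd hc
    exact (not_strictAnti_of_wellFoundedLT _ (strictAnti_nat_of_succ_lt h4)).elim
  · exact not_ssup_singleton (hfB 0) (by have := (hf 0).2; rwa [h1] at this)

theorem exists_W_mem [WellFoundedLT I] {B' : Set (Set (T I ⊕ J))} (hB' : B' ⊆ baseFam I J)
    (hb : @IsTopologicalBasis _ (generateFrom (baseFam I J)) B') (i : I) (p : I → ℕ) :
    ∃ n, (W i p n : Set (T I ⊕ J)) ∈ B' := by
  let _ : TopologicalSpace (T I ⊕ J) := generateFrom (baseFam I J)
  have hO : IsOpen (W i p 0 : Set (T I ⊕ J)) := isBasis.isOpen (W_mem i p 0)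
  obtain ⟨V, hV, hx, hVW⟩ := hb.exists_subset_of_mem_open (node_mem_self (i := i) (p := p)) hO
  rcases hB' hV with ⟨j, q, m, rfl⟩ | ⟨q, rfl⟩ | ⟨a, rfl⟩ | ⟨a, rfl⟩
  · have h1 := W_subset_iff.1 hVW
    have h2 := node_mem_W.1 hx
    have h3 : j = i := le_antisymm h2.1 h1.1
    subst h3
    refine ⟨m, ?_⟩
    rwa [W_congr (q := q) (fun l hl => (h1.2.1 l hl).symm)]
  · exact absurd (Sum.inl_injective (mem_singleton_iff.1 hx)) node_ne_full
  · obtain ⟨b, _, hb⟩ := hx
    exact absurd hb (by simp)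
  · exact absurd (mem_singleton_iff.1 hx) (by simp)

theorem P_mem_of_basis [WellFoundedLT I] {B' : Set (Set (T I ⊕ J))}
    (hb : @IsTopologicalBasis _ (generateFrom (baseFam I J)) B') (p : I → ℕ) :
    (P p : Set (T I ⊕ J)) ∈ B' := by
  let _ : TopologicalSpace (T I ⊕ J) := generateFrom (baseFam I J)
  have hO : IsOpen (P p : Set (T I ⊕ J)) := isBasis.isOpen (P_mem p)
  obtain ⟨V, hV, hx, hVW⟩ := hb.exists_subset_of_mem_open
    (show (Sum.inl (full p) : T I ⊕ J) ∈ P p from rfl) hO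
  have : V = P p := Subset.antisymm hVW (singleton_subset_iff.2 hx)
  rwa [← this]

theorem exists_branch [WellFoundedLT I] {B' : Set (Set (T I ⊕ J))} (hB' : B' ⊆ baseFam I J)
    (hb : @IsTopologicalBasis _ (generateFrom (baseFam I J)) B') :
    ∃ p : I → ℕ, ∀ i, (W i p (p i) : Set (T I ⊕ J)) ∈ B' := by
  classical
  choose N hN using exists_W_mem hB' hb
  let p : I → ℕ := (wellFounded_lt (α := I)).fix
    (fun i f => N i (fun j => if h : j < i then f j h else 0))
  have hp : ∀ i, p i = N i (fun j => if j < i then p j else 0) := by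
    intro i
    have := (wellFounded_lt (α := I)).fix_eq
      (fun i (f : ∀ j, j < i → ℕ) => N i (fun j => if h : j < i then f j h else 0)) i
    simpa [p] using this
  refine ⟨p, fun i => ?_⟩
  have h1 := hN i (fun j => if j < i then p j else 0)
  rw [← hp i] at h1
  rwa [W_congr (q := p) (fun l hl => by simp [hl])] at h1

theorem ord_lt_rank [WellFoundedLT I] [WellFoundedLT J] [Nonempty I] {B' : Set (Set (T I ⊕ J))}
    (hB' : B' ⊆ baseFam I J)
    (hb : @IsTopologicalBasis _ (generateFrom (baseFam I J)) B') : (#I).ord < rank B' := by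
  obtain ⟨p, hp⟩ := exists_branch hB' hb
  have hP : (P p : Set (T I ⊕ J)) ∈ B' := P_mem_of_basis hb p
  obtain ⟨r, hr⟩ := exists_isRk (isNoetherianFamily_of_subset hB' ⟨_, hP⟩)
  refine lt_of_le_of_lt ?_ (hr.lt_rank hP)
  have hlt : ∀ i, r (W i p (p i)) < r (P p) := by
    intro i
    refine hr.lt hP (hp i) (ssubset_iff_subset_ne.2 ⟨?_, ?_⟩)
    · rw [P, singleton_subset_iff, full_mem_W]
      exact ⟨fun _ _ => rfl, le_rfl⟩
    · intro h
      have h1 : (Sum.inl (node i p) : T I ⊕ J) ∈ P p := by rw [h]; exact node_mem_self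
      exact absurd (Sum.inl_injective (mem_singleton_iff.1 h1)) node_ne_full
  have hmono : StrictMono (fun i => r (W i p (p i))) := by
    intro i j hij
    refine hr.lt (hp j) (hp i) (ssubset_iff_subset_ne.2 ⟨?_, ?_⟩)
    · rw [W_subset_iff]
      exact ⟨hij.le, fun _ _ => rfl, fun _ => le_rfl, fun h => absurd h hij.ne⟩
    · intro h
      have h1 := (W_subset_iff.1 h.ge).1
      exact absurd hij (not_lt.2 h1)
  rw [Cardinal.ord_le]
  have := Cardinal.mk_le_of_injective (f := fun a : ULift.{u+1} I =>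
    (⟨r (W a.down p (p a.down)), hlt a.down⟩ : Iio (r (P p))))
    (fun a b hab => ULift.down_injective (hmono.injective (Subtype.mk.inj hab)))
  rw [Cardinal.mk_uLift, Cardinal.mk_Iio_ordinal, Cardinal.lift_le] at this
  exact this

theorem card_ssup_W_lt [WellFoundedLT I] (hI : ℵ₀ ≤ #I) (hlt : ∀ i : I, #(Iio i) < #I)
    (i : I) (p : I → ℕ) (n : ℕ) :
    #{V : Set (T I ⊕ J) // V ∈ baseFam I J ∧ W i p n ⊂ V} < #I := by
  classical
  -- the supersets are indexed by pairs
  let F : I → Type u := fun j => ULift.{u} (Fin (max (p j) n + 1))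
  have h1 : ∀ V : {V : Set (T I ⊕ J) // V ∈ baseFam I J ∧ W i p n ⊂ V},
      ∃ x : Σ j : Iic i, F j, V.1 = W x.1.1 p x.2.down := by
    rintro ⟨V, hV, h⟩
    obtain ⟨j, m, h1, h2, h3, h4⟩ := ssup_W hV h
    refine ⟨⟨⟨j, h2⟩, ⟨⟨m, ?_⟩⟩⟩, h1⟩
    change m < max (p j) n + 1
    rcases h2.eq_or_lt with h | h
    · have := h4 h
      have := le_max_right (p j) n
      omega
    · have := h3 h
      have := le_max_left (p j) n
      omega
  choose g hg using h1
  have hinj : Injective g := by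
    intro a b hab
    apply Subtype.ext
    rw [hg a, hg b, hab]
  refine lt_of_le_of_lt (Cardinal.mk_le_of_injective hinj) ?_
  have hIic : #(Iic i) < #I := by
    have h2 : (Iic i : Set I) = insert i (Iio i) := by
      ext j
      simp [le_iff_eq_or_lt]
    rw [h2]
    refine lt_of_le_of_lt Cardinal.mk_insert_le ?_
    exact Cardinal.add_lt_of_lt hI (hlt i) (lt_of_lt_of_le one_lt_aleph0 hI)
  rcases lt_or_ge #(Iic i) ℵ₀ with hfin | hinf
  · have : Finite (Iic i) := Cardinal.lt_aleph0_iff_finite.1 hfin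
    have : Finite (Σ j : Iic i, F j) := by
      infer_instance
    exact lt_of_lt_of_le (Cardinal.lt_aleph0_iff_finite.2 this) hI
  · rw [Cardinal.mk_sigma]
    refine lt_of_le_of_lt (Cardinal.sum_le_mk_mul_iSup _) ?_
    have hsup : (⨆ j : Iic i, #(F j)) ≤ ℵ₀ :=
      ciSup_le' fun j => (Cardinal.lt_aleph0_of_finite _).le
    refine lt_of_le_of_lt (mul_le_mul' le_rfl hsup) ?_
    rw [Cardinal.mul_aleph0_eq hinf]
    exact hIic

theorem rank_baseFam [WellFoundedLT I] [WellFoundedLT J] (hI : ℵ₀ ≤ #I)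
    (hlt : ∀ i : I, #(Iio i) < #I) (hJ : (#I).ord < typeLT J)
    (hN : IsNoetherianFamily (baseFam I J)) :
    rank (baseFam I J) = typeLT J := by
  obtain ⟨r, hr⟩ := exists_isRk hN
  apply le_antisymm
  · rw [hr.rank_le_iff]
    have hW : ∀ i p n, r (W i p n) < (#I).ord := fun i p n => by
      rw [Cardinal.lt_ord]
      exact lt_of_le_of_lt (hr.card_le (W_mem i p n)) (card_ssup_W_lt hI hlt i p n)
    have hR : ∀ a : J, r (R a) ≤ typein (α := J) (· < ·) a := by
      intro a
      induction a using WellFoundedLT.induction with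
      | ind a ih =>
        rw [hr _ (R_mem a)]
        intro V hV haV
        obtain ⟨b, rfl, hb⟩ := ssup_R hV haV
        exact lt_of_le_of_lt (ih b hb) ((typein_lt_typein (· < ·)).2 hb)
    rintro U (⟨i, p, n, rfl⟩ | ⟨p, rfl⟩ | ⟨a, rfl⟩ | ⟨a, rfl⟩)
    · exact (hW i p n).trans hJ
    · refine lt_of_le_of_lt ?_ hJ
      rw [hr _ (P_mem p)]
      intro V hV hPV
      obtain ⟨j, q, m, rfl⟩ := ssup_P hV hPV
      exact hW j q m
    · exact lt_of_le_of_lt (hR a) (typein_lt_type _ a)
    · by_cases hmax : ∃ b, a < b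
      · obtain ⟨b, hab⟩ := hmax
        refine lt_of_le_of_lt ?_ (typein_lt_type (· < ·) b)
        rw [hr _ (S_mem a)]
        intro V hV hSV
        obtain ⟨c, rfl, hc⟩ := ssup_S hV hSV
        exact lt_of_le_of_lt (hR c) ((typein_lt_typein (· < ·)).2 (lt_of_le_of_lt hc hab))
      · push Not at hmax
        refine lt_of_le_of_lt ?_ (typein_lt_type (· < ·) a)
        rw [hr _ (S_mem a)]
        intro V hV hSV
        obtain ⟨c, rfl, hc⟩ := ssup_S hV hSV
        have hca : c < a := by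
          refine lt_of_le_of_ne hc ?_
          rintro rfl
          have h1 : (R c : Set (T I ⊕ J)) = S c := by
            apply Subset.antisymm
            · rintro x ⟨d, hd, rfl⟩
              have : d = c := le_antisymm (hmax d) hd
              rw [this]
              rfl
            · exact singleton_subset_iff.2 ⟨c, le_rfl, rfl⟩
          rw [h1] at hSV
          exact ssubset_irrefl _ hSV
        exact lt_of_le_of_lt (hR c) ((typein_lt_typein (· < ·)).2 hca)
  · have h1 : ∀ a : J, typein (α := J) (· < ·) a ≤ r (R a) := by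
      intro a
      induction a using WellFoundedLT.induction with
      | ind a ih =>
        refine le_of_forall_lt fun o ho => ?_
        obtain ⟨b, rfl⟩ := typein_surj (α := J) (· < ·) (ho.trans (typein_lt_type _ a))
        have hb : b < a := (typein_lt_typein (· < ·)).1 ho
        refine lt_of_le_of_lt (ih b hb) (hr.lt (R_mem a) (R_mem b) ?_)
        rw [ssubset_iff_subset_ne]
        constructor
        · rintro x ⟨d, hd, rfl⟩
          exact ⟨d, hb.le.trans hd, rfl⟩
        · intro h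
          have h2 : (Sum.inr b : T I ⊕ J) ∈ R a := by rw [h]; exact ⟨b, le_rfl, rfl⟩
          obtain ⟨d, hd, hdb⟩ := h2
          have hdb : d = b := Sum.inr_injective hdb
          subst hdb
          exact absurd hb (not_lt.2 hd)
    refine le_of_forall_lt fun o ho => ?_
    obtain ⟨b, rfl⟩ := typein_surj (α := J) (· < ·) ho
    exact lt_of_le_of_lt (h1 b) (hr.lt_rank (R_mem b))

end Space

/-- **Answer to Q1 (negative), for every non-cardinal ordinal.** For every ordinal `α` that is not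
a cardinal there are a first countable zero-dimensional Hausdorff space `X` and a Noetherian base
`B` of `X` consisting of clopen sets, with `rank B = α`, such that every base `B' ⊆ B` of `X` has
`rank B' > |α|`. -/
theorem result (α : Ordinal.{u}) (hα : α.card.ord ≠ α) :
    ∃ (X : Type u) (_ : TopologicalSpace X) (B : Set (Set X)),
      T2Space X ∧ FirstCountableTopology X ∧ (∀ U ∈ B, IsClopen U) ∧
      IsTopologicalBasis B ∧ IsNoetherianFamily B ∧ rank B = α ∧
      ∀ B' ⊆ B, IsTopologicalBasis B' → IsNoetherianFamily B' ∧ α.card.ord < rank B' := by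
  have hlt : α.card.ord < α := lt_of_le_of_ne (Cardinal.ord_card_le α) hα
  have hinf : ℵ₀ ≤ α.card := by
    by_contra hfin
    have h1 := not_le.1 hfin
    rw [Ordinal.card_lt_aleph0, Ordinal.lt_omega0] at h1
    obtain ⟨n, rfl⟩ := h1
    simp at hα
  have hne : Nonempty α.card.ord.ToType := by
    apply Cardinal.nonempty_ord_toType
    intro h
    rw [h] at hinf
    exact absurd hinf (not_le.2 Cardinal.aleph0_pos)
  have hcard : #α.card.ord.ToType = α.card := Cardinal.mk_ord_toType _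
  have hN : IsNoetherianFamily (baseFam α.card.ord.ToType α.ToType) :=
    isNoetherianFamily_of_subset Subset.rfl ⟨_, P_mem (fun _ => 0)⟩
  refine ⟨T α.card.ord.ToType ⊕ α.ToType, generateFrom (baseFam _ _), baseFam _ _, t2,
    firstCountable, fun U hU => isClopen_baseFam hU, isBasis, hN, ?_, fun B' hB' hb => ⟨?_, ?_⟩⟩
  · rw [rank_baseFam (by rw [hcard]; exact hinf)
      (fun i => by rw [hcard]; exact Cardinal.mk_Iio_toType_ord_lt i)
      (by rw [hcard, Ordinal.type_toType]; exact hlt) hN, Ordinal.type_toType]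
  · exact isNoetherianFamily_of_subset hB' ⟨_, P_mem_of_basis hb (fun _ => 0)⟩
  · have := ord_lt_rank hB' hb
    rwa [hcard] at this

end Pool.H52.MV.NoetherianRank
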